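import Pool.Agent.K1H11.NS8.LeftInt

/-!
# Continuation of a smooth solution on `[0, T)`
-/

open MeasureTheory Set Filter Topology
open scoped ENNReal NNReal ContDiff

namespace Pool.Agent.K1H11.NS

open H459R3.NS (ee fr cube S SP Per D Rap IsSol energy enstrophy)
open Pool.Agent.H356R3.NS (AdmissiblePeriodic fc)

lemma adm_congr' {ν : ℝ} {v : E3 → E3} {u u' : ℝ → E3 → E3} {p : ℝ → E3 → ℝ} (h : AdmissiblePeriodic ν v u p)
    (he : ∀ t, 0 ≤ t → u' t = u t) : AdmissiblePeriodic ν v u' p where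
  smooth_u := h.smooth_u.congr fun z hz => by
    show u' z.1 z.2 = u z.1 z.2
    rw [he z.1 hz.1]
  smooth_p := h.smooth_p
  periodic_u := fun t ht x j => by rw [he t ht]; exact h.periodic_u t ht x j
  periodic_p := h.periodic_p
  momentum := fun t ht x i => by
    have e1 : derivWithin (fun s => u' s x i) (Ici 0) t = derivWithin (fun s => u s x i) (Ici 0) t := by
      refine derivWithin_congr (fun s hs => ?_) ?_
      · show u' s x i = u s x i
        rw [he s hs]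
      · show u' t x i = u t x i
        rw [he t ht]
    rw [e1, he t ht]
    exact h.momentum t ht x i
  divFree := fun t ht x => by rw [he t ht]; exact h.divFree t ht x
  initial := by rw [he 0 le_rfl]; exact h.initial

/-- the glued velocity -/
noncomputable def glue (T : ℝ) (u V : ℝ → E3 → E3) : ℝ → E3 → E3 := fun t => if t < T then u t else V (t - T)

section
variable {ν T : ℝ} {u V : ℝ → E3 → E3} {p : ℝ → E3 → ℝ} {φ : ℝ → E3 → E3}

lemma glue_left {t : ℝ} (ht : t < T) : glue T u V t = u t := if_pos ht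

lemma glue_right {t : ℝ} (ht : T ≤ t) : glue T u V t = V (t - T) := if_neg (not_lt.2 ht)

lemma glue_adm (hV : ∀ t₀ : ℝ, 0 < t₀ → ∃ p : ℝ → E3 → ℝ, AdmissiblePeriodic ν (V t₀) (fun t => V (t₀ + t)) p)
    {t₀ : ℝ} (ht₀ : T < t₀) : ∃ p : ℝ → E3 → ℝ,
      AdmissiblePeriodic ν (glue T u V t₀) (fun t => glue T u V (t₀ + t)) p := by
  obtain ⟨p, hp⟩ := hV (t₀ - T) (by linarith)
  refine ⟨p, ?_⟩
  rw [glue_right ht₀.le]
  refine adm_congr' hp fun t ht => ?_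
  rw [glue_right (by linarith)]
  congr 1
  ring

lemma shift_test (hφ : TestField φ) (T : ℝ) : TestField fun t => φ (T + t) where
  smooth := hφ.smooth.comp ((contDiff_const.add contDiff_fst).prodMk contDiff_snd :
      ContDiff ℝ ∞ (fun z : ℝ × E3 => ((T + z.1, z.2) : ℝ × E3)))
  periodic := fun t x j => hφ.periodic (T + t) x j
  divFree := fun t x => hφ.divFree (T + t) x
  support := by
    obtain ⟨R, hR⟩ := hφ.support
    exact ⟨R - T, fun t ht x => hR (T + t) (by linarith) x⟩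

lemma weakInt_shift {s : ℝ} (hs : 0 ≤ s) (x : E3) :
    weakInt ν (glue T u V) φ (T + s) x = weakInt ν V (fun t => φ (T + t)) s x := by
  have e1 : glue T u V (T + s) = V s := by
    rw [glue_right (by linarith)]
    congr 1
    ring
  have e2 : ∀ i, deriv (fun r => φ r x i) (T + s) = deriv (fun r => φ (T + r) x i) s := fun i =>
    (deriv_comp_const_add (fun r => φ r x i) T s).symm
  unfold weakInt
  rw [e1]
  simp_rw [e2]

lemma weakInt_glue_left {t : ℝ} (ht : t < T) (x : E3) : weakInt ν (glue T u V) φ t x = weakInt ν u φ t x := by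
  unfold weakInt
  rw [glue_left ht]

lemma shift_pre (T : ℝ) (s : Set ℝ) :
    (fun z : ℝ × E3 => ((T, 0) : ℝ × E3) + z) ⁻¹' ({t | t - T ∈ s} ×ˢ (cube : Set E3)) = s ×ˢ cube := by
  ext z
  simp only [mem_preimage, mem_prod, Prod.fst_add, Prod.snd_add, zero_add, mem_setOf_eq, add_sub_cancel_left]

/-- The weak formulation of the glued field. -/
theorem weak_glue (hν : 0 ≤ ν) (hT : 0 < T) (h : IsSol ν T u p) {a : K → C3}
    (hlim : ∀ k, Tendsto (fun t => WH u t k) (𝓝[<] T) (𝓝 (a k)))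
    (hV : ∀ φ : ℝ → E3 → E3, TestField φ →
      IntegrableOn (fun z : ℝ × E3 => weakInt ν V φ z.1 z.2) (Ioi 0 ×ˢ cube) ∧
      (∫ z in Ioi (0 : ℝ) ×ˢ (cube : Set E3), weakInt ν V φ z.1 z.2) + pairing a (φ 0) = 0)
    (hφ : TestField φ) :
    IntegrableOn (fun z : ℝ × E3 => weakInt ν (glue T u V) φ z.1 z.2) (Ioi 0 ×ˢ cube) ∧
    (∫ z in Ioi (0 : ℝ) ×ˢ (cube : Set E3), weakInt ν (glue T u V) φ z.1 z.2) +
      ∫ x in cube, ∑ i, u 0 x i * φ 0 x i = 0 := by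
  obtain ⟨l1, l2⟩ := weak_left hν hT h hφ hlim
  obtain ⟨r1, r2⟩ := hV _ (shift_test hφ T)
  rw [add_zero] at r2
  have mc : MeasurableSet (cube : Set E3) := measurableSet_Icc
  -- the left part
  have ml : MeasurableSet (Ioo (0 : ℝ) T ×ˢ (cube : Set E3)) := measurableSet_Ioo.prod mc
  have hl : EqOn (fun z : ℝ × E3 => weakInt ν u φ z.1 z.2) (fun z => weakInt ν (glue T u V) φ z.1 z.2)
      (Ioo 0 T ×ˢ cube) := fun z hz => (weakInt_glue_left hz.1.2 z.2).symm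
  have l1' : IntegrableOn (fun z : ℝ × E3 => weakInt ν (glue T u V) φ z.1 z.2) (Ioo 0 T ×ˢ cube) :=
    l1.congr_fun hl ml
  have l2' : ∫ z in Ioo 0 T ×ˢ (cube : Set E3), weakInt ν (glue T u V) φ z.1 z.2 =
      pairing a (φ T) - ∫ x in cube, ∑ i, u 0 x i * φ 0 x i := by
    rw [← l2]
    exact (setIntegral_congr_fun ml hl).symm
  have hae : (Ioo (0 : ℝ) T ×ˢ (cube : Set E3) : Set (ℝ × E3)) =ᵐ[volume] Ioc (0 : ℝ) T ×ˢ cube := by
    rw [Measure.volume_eq_prod]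
    exact Measure.set_prod_ae_eq Ioo_ae_eq_Ioc (Filter.EventuallyEq.refl _ _)
  have l1'' : IntegrableOn (fun z : ℝ × E3 => weakInt ν (glue T u V) φ z.1 z.2) (Ioc 0 T ×ˢ cube) :=
    l1'.congr_set_ae hae.symm
  have l2'' : ∫ z in Ioc 0 T ×ˢ (cube : Set E3), weakInt ν (glue T u V) φ z.1 z.2 =
      pairing a (φ T) - ∫ x in cube, ∑ i, u 0 x i * φ 0 x i := by
    rw [← l2', setIntegral_congr_set hae]
  -- the right part
  haveI : (volume : Measure (ℝ × E3)).IsAddLeftInvariant := by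
    rw [Measure.volume_eq_prod]
    infer_instance
  have hmp : MeasurePreserving (fun z : ℝ × E3 => ((T, 0) : ℝ × E3) + z) volume volume :=
    measurePreserving_add_left volume _
  have hme : MeasurableEmbedding (fun z : ℝ × E3 => ((T, 0) : ℝ × E3) + z) := measurableEmbedding_addLeft _
  have hset : ({t : ℝ | t - T ∈ Ioi (0 : ℝ)} ×ˢ (cube : Set E3) : Set (ℝ × E3)) = Ioi T ×ˢ cube := by
    congr 1
    ext t
    simp only [mem_setOf_eq, mem_Ioi, sub_pos]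
  have hpre : (fun z : ℝ × E3 => ((T, 0) : ℝ × E3) + z) ⁻¹' (Ioi T ×ˢ (cube : Set E3)) = Ioi 0 ×ˢ cube := by
    rw [← hset, shift_pre]
  have mr : MeasurableSet (Ioi (0 : ℝ) ×ˢ (cube : Set E3)) := measurableSet_Ioi.prod mc
  have hr : EqOn (fun z : ℝ × E3 => weakInt ν V (fun t => φ (T + t)) z.1 z.2)
      ((fun z : ℝ × E3 => weakInt ν (glue T u V) φ z.1 z.2) ∘ fun z => ((T, 0) : ℝ × E3) + z) (Ioi 0 ×ˢ cube) := by
    intro z hz
    simp only [Function.comp, Prod.fst_add, Prod.snd_add, zero_add]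
    exact (weakInt_shift (le_of_lt hz.1) z.2).symm
  have r1' : IntegrableOn (fun z : ℝ × E3 => weakInt ν (glue T u V) φ z.1 z.2) (Ioi T ×ˢ cube) := by
    rw [← hmp.integrableOn_comp_preimage hme, hpre]
    exact r1.congr_fun hr mr
  have r2' : ∫ z in Ioi T ×ˢ (cube : Set E3), weakInt ν (glue T u V) φ z.1 z.2 + 0 = -pairing a (φ T) := by
    simp only [add_zero]
    rw [← hmp.setIntegral_preimage_emb hme, hpre]
    have h1 : ∫ z in Ioi (0 : ℝ) ×ˢ (cube : Set E3), weakInt ν V (fun t => φ (T + t)) z.1 z.2 =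
        ∫ z in Ioi (0 : ℝ) ×ˢ (cube : Set E3), weakInt ν (glue T u V) φ (((T, 0) : ℝ × E3) + z).1
          (((T, 0) : ℝ × E3) + z).2 := setIntegral_congr_fun mr hr
    rw [← h1]
    linarith
  simp only [add_zero] at r2'
  have e : Ioi (0 : ℝ) ×ˢ (cube : Set E3) = (Ioc 0 T ×ˢ cube) ∪ (Ioi T ×ˢ cube) := by
    rw [← union_prod, Ioc_union_Ioi_eq_Ioi hT.le]
  have hdis : Disjoint (Ioc (0 : ℝ) T ×ˢ (cube : Set E3)) (Ioi T ×ˢ cube) := by
    rw [Set.disjoint_left]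
    rintro z hz1 hz2
    exact absurd hz1.1.2 (not_le.2 hz2.1)
  have mT : MeasurableSet (Ioi T ×ˢ (cube : Set E3)) := measurableSet_Ioi.prod mc
  rw [e]
  refine ⟨l1''.union r1', ?_⟩
  rw [setIntegral_union hdis mT l1'' r1', l2'', r2']
  ring

lemma shift_lint (T : ℝ) (f : ℝ → ℝ≥0∞) (s : Set ℝ) :
    ∫⁻ t in {t | t - T ∈ s}, f (t - T) = ∫⁻ r in s, f r := by
  have hmp : MeasurePreserving (fun r : ℝ => r - T) volume volume := measurePreserving_sub_right volume T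
  have hme : MeasurableEmbedding (fun r : ℝ => r - T) := measurableEmbedding_subRight T
  exact hmp.setLIntegral_comp_preimage_emb hme f s

lemma shift_Ioc (T R : ℝ) : {t : ℝ | t - T ∈ Ioc (0 : ℝ) R} = Ioc T (T + R) := by
  ext t
  simp only [mem_setOf_eq, mem_Ioc, sub_pos, sub_le_iff_le_add']

lemma glue_sq (hν : 0 ≤ ν) (hT : 0 < T) (h : IsSol ν T u p)
    (hV : ∀ R : ℝ, ∫⁻ t in Ioc 0 R, ∫⁻ x in cube, ‖V t x‖ₑ ^ 2 ≠ ⊤) (R : ℝ) :
    ∫⁻ t in Ioc 0 R, ∫⁻ x in cube, ‖glue T u V t x‖ₑ ^ 2 ≠ ⊤ := by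
  have hsub : Ioc 0 R ⊆ Ioo 0 T ∪ ({T} ∪ Ioc T (T + R)) := by
    intro t ht
    rcases lt_trichotomy t T with h1 | h1 | h1
    · exact Or.inl ⟨ht.1, h1⟩
    · exact Or.inr (Or.inl h1)
    · exact Or.inr (Or.inr ⟨h1, by linarith [ht.2]⟩)
  have h1 : ∫⁻ t in Ioo 0 T, ∫⁻ x in cube, ‖glue T u V t x‖ₑ ^ 2 = ∫⁻ t in Ioo 0 T, ∫⁻ x in cube, ‖u t x‖ₑ ^ 2 := by
    refine setLIntegral_congr_fun measurableSet_Ioo fun t ht => ?_
    simp only [glue_left (u := u) (V := V) ht.2]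
  have h2 : ∫⁻ t in ({T} : Set ℝ), ∫⁻ x in cube, ‖glue T u V t x‖ₑ ^ 2 = 0 := by
    rw [Measure.restrict_eq_zero.2 (by simp)]
    exact lintegral_zero_measure _
  have h3 : ∫⁻ t in Ioc T (T + R), ∫⁻ x in cube, ‖glue T u V t x‖ₑ ^ 2 = ∫⁻ t in Ioc 0 R, ∫⁻ x in cube, ‖V t x‖ₑ ^ 2 := by
    rw [← shift_lint T (fun t => ∫⁻ x in cube, ‖V t x‖ₑ ^ 2), shift_Ioc]
    refine setLIntegral_congr_fun measurableSet_Ioc fun t ht => ?_
    simp only [glue_right (u := u) (V := V) ht.1.le]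
  refine ne_top_of_le_ne_top ?_ ((lintegral_mono_set hsub).trans ((lintegral_union_le _ _ _).trans
    (add_le_add le_rfl (lintegral_union_le _ _ _))))
  rw [h1, h2, h3, zero_add]
  exact ENNReal.add_ne_top.2 ⟨ne_top_of_le_ne_top (ENNReal.mul_ne_top ENNReal.ofReal_ne_top ENNReal.ofReal_ne_top)
    (left_sq hν h), hV R⟩

end

/-- **Continuation of smooth solutions.** -/
theorem continuation {ν T : ℝ} (hν : 0 < ν) (hT : 0 < T) {u : ℝ → E3 → E3} {p : ℝ → E3 → ℝ} (hu : IsSol ν T u p)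
    {w₀ : E3 → E3} {w : ℝ → E3 → E3} {q : ℝ → E3 → ℝ} (hw : AdmissiblePeriodic ν w₀ w q)
    (hm : ∀ i, ∫ x in cube, w₀ x i = ∫ x in cube, u 0 x i) {ε : ℝ} (hε : 0 < ε) :
    ∃ (U : ℝ → E3 → E3) (a : K → C3),
      (∀ t, t < T → U t = u t) ∧
      (∀ t₀, T < t₀ → ∃ p, AdmissiblePeriodic ν (U t₀) (fun t => U (t₀ + t)) p) ∧
      (∀ t, T + ε ≤ t → ∀ x i, |U t x i - w (t - T) x i| ≤ ε) ∧
      (∀ ρ : ℝ, 0 < ρ → ∃ δ : ℝ, 0 < δ ∧ ∀ t, T < t → t ≤ T + δ → ∀ x i, Real.sqrt (t - T) * |U t x i| ≤ ρ) ∧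
      (∀ s : ℝ, 2 < s → ∫⁻ t in Ioc T (T + 1), (ENNReal.ofReal (Real.sqrt (t - T)) * ⨆ x, ‖U t x‖ₑ) ^ s /
        ENNReal.ofReal (t - T) ≠ ⊤) ∧
      ∑' k, ‖a k‖ₑ ^ 2 ≤ ENNReal.ofReal (energy (u 0)) ∧
      Tendsto (fun t => ∑' k, if k = 0 then 0 else ‖fc (U t) k - a k‖ₑ ^ 2 / ENNReal.ofReal (∑ i, (k i : ℝ) ^ 2))
        (𝓝[≠] T) (𝓝 0) ∧
      (∀ r : ℝ, 2 < r → Pool.Agent.H356R3.NS.critNorm r a ≠ ⊤ →
        Tendsto (fun t => Pool.Agent.H356R3.NS.critNorm r (fun k => fc (U t) k - a k)) (𝓝[>] T) (𝓝 0)) ∧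
      (∀ R : ℝ, ∫⁻ t in Ioc 0 R, ∫⁻ x in cube, ‖U t x‖ₑ ^ 2 ≠ ⊤) ∧
      ∀ φ : ℝ → E3 → E3, TestField φ →
        IntegrableOn (fun z : ℝ × E3 => weakInt ν U φ z.1 z.2) (Ioi 0 ×ˢ cube) ∧
        (∫ z in Ioi (0 : ℝ) ×ˢ (cube : Set E3), weakInt ν U φ z.1 z.2) + ∫ x in cube, ∑ i, u 0 x i * φ 0 x i = 0 := by
  obtain ⟨a, hlim, hsym, hdt, h0, hs, hsE, hleft⟩ := left_limit hν.le hT hu (m := fun i => ∫ x in cube, u 0 x i)
    fun i => rfl
  have ha2 : ∑' k, ‖a k‖ₑ ^ 2 ≤ ENNReal.ofReal (energy (u 0)) := by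
    have e1 : ∀ k, ‖a k‖ₑ ^ 2 = ENNReal.ofReal (‖a k‖ ^ 2) := by
      intro k
      rw [← ofReal_norm, ENNReal.ofReal_pow (norm_nonneg _)]
    simp_rw [e1]
    rw [← ENNReal.ofReal_tsum_of_nonneg (fun _ => sq_nonneg _) hs]
    exact ENNReal.ofReal_le_ofReal hsE
  have haH : ∑' k, (if k = 0 then 0 else ‖a k‖ₑ ^ 2 / ENNReal.ofReal (∑ i, (k i : ℝ) ^ 2)) ≠ ⊤ := by
    refine ne_top_of_le_ne_top (ne_top_of_le_ne_top ENNReal.ofReal_ne_top ha2) (ENNReal.tsum_le_tsum fun k => ?_)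
    by_cases hk : k = 0
    · rw [if_pos hk]; exact zero_le
    · rw [if_neg hk]
      refine ENNReal.div_le_of_le_mul (le_mul_of_one_le_right zero_le ?_)
      rw [ENNReal.one_le_ofReal]
      obtain ⟨j, hj⟩ := Function.ne_iff.1 hk
      have hj' : k j ≠ 0 := hj
      have h0 : 0 < k j ^ 2 := by positivity
      have h1 : (1 : ℤ) ≤ k j ^ 2 := by linarith
      have h2 : (1 : ℝ) ≤ (k j : ℝ) ^ 2 := by exact_mod_cast h1
      exact h2.trans (Finset.single_le_sum (f := fun i => (k i : ℝ) ^ 2) (fun i _ => sq_nonneg _)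
        (Finset.mem_univ j))
  obtain ⟨V, v1, v2, v3, v3', v4, v5, v6⟩ := bif_main7 hν hw hm hsym hdt h0 hε
  obtain ⟨v6a, v6b⟩ := v6 haH
  have v7 := K1H52.L2.weak_form_H v1 v6b haH v5
  have htr : Tendsto (fun t => t - T) (𝓝[>] T) (𝓝[>] 0) := by
    refine tendsto_nhdsWithin_iff.2 ⟨?_, ?_⟩
    · have h1 : Tendsto (fun t => t - T) (𝓝 T) (𝓝 (T - T)) := (continuous_id.sub continuous_const).tendsto T
      rw [sub_self] at h1
      exact h1.mono_left nhdsWithin_le_nhds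
    · filter_upwards [self_mem_nhdsWithin] with t ht
      have ht' : T < t := ht
      exact sub_pos.2 ht'
  refine ⟨glue T u V, a, fun t ht => glue_left ht, fun t₀ ht₀ => glue_adm v1 ht₀, fun t ht x i => ?_,
    fun ρ hρ => ?_, fun s hs2 => ?_, ha2, ?_, fun r hr hra => ?_, glue_sq hν.le hT hu v6b,
    fun φ hφ => weak_glue hν.le hT hu hlim v7 hφ⟩
  · rw [glue_right (by linarith)]
    exact v2 (t - T) (by linarith) x i
  · obtain ⟨δ, hδ, h3⟩ := v3 ρ hρ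
    refine ⟨δ, hδ, fun t h1 h2 x i => ?_⟩
    rw [glue_right h1.le]
    exact h3 (t - T) (by linarith) (by linarith) x i
  · have h1 := v3' s hs2
    rw [← shift_lint T (fun t => (ENNReal.ofReal (Real.sqrt t) * ⨆ x, ‖V t x‖ₑ) ^ s / ENNReal.ofReal t), shift_Ioc] at h1
    refine ne_top_of_le_ne_top h1 (le_of_eq ?_)
    refine setLIntegral_congr_fun measurableSet_Ioc fun t ht => ?_
    simp only [glue_right (u := u) (V := V) ht.1.le]
  · rw [← nhdsLT_sup_nhdsGT]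
    refine Tendsto.sup ?_ ?_
    · refine hleft.congr' ?_
      filter_upwards [self_mem_nhdsWithin] with t ht
      have ht' : t < T := ht
      refine tsum_congr fun k => ?_
      have e1 : fc (glue T u V t) k = WH u t k := by
        funext i
        rw [glue_left ht', fc_eq_fr]
        rfl
      rw [e1]
    · refine (v6a.comp htr).congr' ?_
      filter_upwards [self_mem_nhdsWithin] with t ht
      have ht' : T ≤ t := le_of_lt ht
      simp only [Function.comp, glue_right (u := u) (V := V) ht']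
  · refine ((v4 r hr hra).comp htr).congr' ?_
    filter_upwards [self_mem_nhdsWithin] with t ht
    have ht' : T ≤ t := le_of_lt ht
    simp only [Function.comp, glue_right (u := u) (V := V) ht']

end Pool.Agent.K1H11.NS
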