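import Pool.Agent.K1H11.NS7.Phys7
import Pool.Agent.K1H52.L2.WeakForm

/-!
# The limit of a smooth solution on `[0, T)` at the time `T`
-/

open MeasureTheory Set Filter Topology
open scoped ENNReal NNReal ContDiff

namespace Pool.Agent.K1H11.NS

open H459R3.NS (ee fr cube S SP Per D Rap IsSol energy enstrophy)

section
variable {ν T : ℝ} {u : ℝ → E3 → E3} {p : ℝ → E3 → ℝ}

lemma energy_le (hν : 0 ≤ ν) (h : IsSol ν T u p) {t : ℝ} (ht : t ∈ Ico 0 T) : energy (u t) ≤ energy (u 0) := by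
  have hsub : Icc 0 t ⊆ Ico 0 T := fun s hs => ⟨hs.1, hs.2.trans_lt ht.2⟩
  have hd : ∀ s ∈ Ioo 0 t, HasDerivAt (fun s => energy (u s)) (-(2 * ν * enstrophy (u s))) s := fun s hs =>
    h.energy_hasDerivAt ⟨hs.1, hs.2.trans ht.2⟩
  have hE : ∀ v : E3 → E3, 0 ≤ enstrophy v := fun v =>
    Finset.sum_nonneg fun i _ => Finset.sum_nonneg fun j _ => integral_nonneg fun x => sq_nonneg _
  have hanti : AntitoneOn (fun s => energy (u s)) (Icc 0 t) := by
    refine antitoneOn_of_deriv_nonpos (convex_Icc 0 t) (h.energy_continuousOn.mono hsub) ?_ ?_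
    · rw [interior_Icc]
      exact fun s hs => (hd s hs).differentiableAt.differentiableWithinAt
    · rw [interior_Icc]
      intro s hs
      rw [(hd s hs).deriv]
      have := hE (u s)
      have : 0 ≤ 2 * ν * enstrophy (u s) := by positivity
      linarith
  exact hanti ⟨le_rfl, ht.1⟩ ⟨ht.1, le_rfl⟩ ht.1

lemma WH_sq (h : IsSol ν T u p) {t : ℝ} (ht : t ∈ Ico 0 T) :
    Summable (fun k => ‖WH u t k‖ ^ 2) ∧ ∑' k, ‖WH u t k‖ ^ 2 ≤ energy (u t) := by
  have hp : ∀ i, Summable (fun k => ‖WH u t k i‖ ^ 2) ∧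
      ∫ x in cube, u t x i ^ 2 = ∑' k, ‖WH u t k i‖ ^ 2 := by
    intro i
    obtain ⟨p1, p2⟩ := parseval (h.sp ht i)
    refine ⟨p1, ?_⟩
    simp_rw [pow_two (u t _ i)]
    exact p2
  have hle : ∀ k, ‖WH u t k‖ ^ 2 ≤ ∑ i, ‖WH u t k i‖ ^ 2 := by
    intro k
    have h1 : ‖WH u t k‖ ≤ Real.sqrt (∑ i, ‖WH u t k i‖ ^ 2) := by
      rw [pi_norm_le_iff_of_nonneg (Real.sqrt_nonneg _)]
      intro i
      apply Real.le_sqrt_of_sq_le
      exact Finset.single_le_sum (f := fun i => ‖WH u t k i‖ ^ 2) (fun i _ => sq_nonneg _) (Finset.mem_univ i)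
    calc _ ≤ (Real.sqrt (∑ i, ‖WH u t k i‖ ^ 2)) ^ 2 := pow_le_pow_left₀ (norm_nonneg _) h1 2
      _ = _ := Real.sq_sqrt (Finset.sum_nonneg fun i _ => sq_nonneg _)
  have hs : Summable fun k => ∑ i, ‖WH u t k i‖ ^ 2 := summable_sum fun i _ => (hp i).1
  have hs2 := hs.of_nonneg_of_le (fun k => sq_nonneg _) hle
  refine ⟨hs2, (hs2.tsum_le_tsum hle hs).trans (le_of_eq ?_)⟩
  rw [Summable.tsum_finsetSum fun i _ => (hp i).1]
  unfold energy
  exact Finset.sum_congr rfl fun i _ => (hp i).2.symm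

lemma WH_le (hν : 0 ≤ ν) (h : IsSol ν T u p) {t : ℝ} (ht : t ∈ Ico 0 T) (k : K) :
    ‖WH u t k‖ ≤ Real.sqrt (energy (u 0)) := by
  obtain ⟨h1, h2⟩ := WH_sq h ht
  apply Real.le_sqrt_of_sq_le
  exact (h1.le_tsum k fun _ _ => sq_nonneg _).trans (h2.trans (energy_le hν h ht))

lemma norm_Bf_l2 {x : K → C3} (hx : Summable fun k => ‖x k‖ ^ 2) (k : K) (i : Fin 3) :
    ‖Bf x x k i‖ ≤ 9 * (4 * Real.pi * nk k * ∑' k, ‖x k‖ ^ 2) := by
  set Sx := ∑' k, ‖x k‖ ^ 2 with hSx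
  have hpi := Real.pi_pos
  have hn := nk_nonneg k
  have hS0 : 0 ≤ Sx := tsum_nonneg fun _ => sq_nonneg _
  have hsh : Summable fun l => ‖x (k - l)‖ ^ 2 := (Equiv.subLeft k).summable_iff.2 hx
  have hsh' : ∑' l, ‖x (k - l)‖ ^ 2 = Sx := (Equiv.subLeft k).tsum_eq fun l => ‖x l‖ ^ 2
  have hcv : ∀ j m, ‖cv x x k j m‖ ≤ Sx := by
    intro j m
    have h1 : HasSum (fun l => (‖x l‖ ^ 2 + ‖x (k - l)‖ ^ 2) / 2) Sx := by
      have h2 := (hx.hasSum.add hsh.hasSum).div_const 2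
      rw [hsh', ← hSx, add_self_div_two] at h2
      exact h2
    unfold cv
    refine tsum_of_norm_bounded h1 fun l => ?_
    rw [norm_mul]
    have a1 := norm_le_pi_norm (x l) j
    have a2 := norm_le_pi_norm (x (k - l)) m
    have b1 := norm_nonneg (x l j)
    have b2 := norm_nonneg (x (k - l) m)
    have c1 : ‖x l j‖ * ‖x (k - l) m‖ ≤ ‖x l‖ * ‖x (k - l)‖ := mul_le_mul a1 a2 b2 (norm_nonneg _)
    nlinarith [sq_nonneg (‖x l‖ - ‖x (k - l)‖)]
  unfold Bf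
  calc ‖∑ j, ∑ m, coef k i j m * cv x x k j m‖ ≤ ∑ j : Fin 3, ∑ m : Fin 3, 4 * Real.pi * nk k * Sx := by
        refine (norm_sum_le _ _).trans (Finset.sum_le_sum fun j _ => (norm_sum_le _ _).trans
          (Finset.sum_le_sum fun m _ => ?_))
        rw [norm_mul]
        exact mul_le_mul (norm_coef_le k i j m) (hcv j m) (norm_nonneg _) (by positivity)
    _ = _ := by
        rw [Finset.sum_const, Finset.sum_const, Finset.card_univ, Fintype.card_fin]
        simp only [nsmul_eq_mul]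
        push_cast
        ring

/-- The limits of the coefficients. -/
lemma left_coef (hν : 0 ≤ ν) (hT : 0 < T) (h : IsSol ν T u p) (k : K) (i : Fin 3) :
    ∃ z : ℂ, Tendsto (fun t => WH u t k i) (𝓝[<] T) (𝓝 z) := by
  set E0 := energy (u 0) with hE0
  have hE00 : 0 ≤ E0 := energy_nonneg _
  have hpi := Real.pi_pos
  have hn := nk_nonneg k
  have hsq := sq_nonneg' k
  set L := 4 * Real.pi ^ 2 * ν * sq k * Real.sqrt E0 + 9 * (4 * Real.pi * nk k * E0) with hL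
  have hL0 : 0 ≤ L := by positivity
  have hlip : ∀ x ∈ Ioo 0 T, ∀ y ∈ Ioo 0 T, ‖WH u y k i - WH u x k i‖ ≤ L * ‖y - x‖ := by
    intro x hx y hy
    refine Convex.norm_image_sub_le_of_norm_hasDerivWithin_le (f := fun t => WH u t k i) (s := Ioo 0 T)
      (f' := fun t => -((4 * Real.pi ^ 2 * ν * sq k : ℝ) : ℂ) * WH u t k i + Bf (WH u t) (WH u t) k i)
      (fun t ht => (WH_hasDeriv h ht k i).hasDerivWithinAt) (fun t ht => ?_) (convex_Ioo 0 T) hx hy
    have hI : t ∈ Ico 0 T := ⟨ht.1.le, ht.2⟩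
    obtain ⟨s1, s2⟩ := WH_sq h hI
    refine (norm_add_le _ _).trans (add_le_add ?_ ((norm_Bf_l2 s1 k i).trans ?_))
    · rw [norm_mul, norm_neg, Complex.norm_real, Real.norm_of_nonneg (by positivity)]
      exact mul_le_mul_of_nonneg_left ((norm_le_pi_norm _ i).trans (WH_le hν h hI k)) (by positivity)
    · have := s2.trans (energy_le hν h hI)
      gcongr
  have hc : Cauchy (map (fun t => WH u t k i) (𝓝[<] T)) := by
    rw [Metric.cauchy_iff]
    refine ⟨inferInstance, fun e he => ?_⟩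
    set δ := e / (2 * (L + 1)) with hδ
    have hδ0 : 0 < δ := by positivity
    refine ⟨(fun t => WH u t k i) '' (Ioo (max 0 (T - δ)) T), image_mem_map
      (Ioo_mem_nhdsLT (max_lt hT (by linarith))), ?_⟩
    rintro _ ⟨x, hx, rfl⟩ _ ⟨y, hy, rfl⟩
    have x0 : 0 < x := (le_max_left _ _).trans_lt hx.1
    have y0 : 0 < y := (le_max_left _ _).trans_lt hy.1
    have x1 : T - δ < x := (le_max_right _ _).trans_lt hx.1
    have y1 : T - δ < y := (le_max_right _ _).trans_lt hy.1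
    have h1 := hlip y ⟨y0, hy.2⟩ x ⟨x0, hx.2⟩
    have h2 : ‖x - y‖ ≤ δ := by
      rw [Real.norm_eq_abs, abs_le]
      constructor
      · linarith [hy.2]
      · linarith [hx.2]
    rw [dist_eq_norm]
    refine h1.trans_lt ?_
    calc L * ‖x - y‖ ≤ L * δ := mul_le_mul_of_nonneg_left h2 hL0
      _ ≤ (L + 1) * δ := by nlinarith
      _ = e / 2 := by rw [hδ]; field_simp
      _ < e := by linarith
  obtain ⟨z, hz⟩ := CompleteSpace.complete hc
  exact ⟨z, hz⟩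

lemma left_weight {F : Filter ℝ} {x : ℝ → K → C3} {a : K → C3} {B : ℝ} (hB : 0 ≤ B)
    (hlim : ∀ k, Tendsto (fun t => x t k) F (𝓝 (a k)))
    (hb : ∀ᶠ t in F, Summable (fun k => ‖x t k - a k‖ ^ 2) ∧ ∑' k, ‖x t k - a k‖ ^ 2 ≤ B) :
    Tendsto (fun t => ∑' k, if k = 0 then 0 else ‖x t k - a k‖ₑ ^ 2 / ENNReal.ofReal (∑ i, (k i : ℝ) ^ 2)) F (𝓝 0) := by
  rw [ENNReal.tendsto_nhds_zero]
  intro e he
  rcases eq_or_ne e ⊤ with rfl | htop
  · exact Eventually.of_forall fun _ => le_top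
  set e' := e.toReal with he'
  have he0 : 0 < e' := ENNReal.toReal_pos he.ne' htop
  have hee : e = ENNReal.ofReal e' := (ENNReal.ofReal_toReal htop).symm
  obtain ⟨R, hR⟩ := exists_nat_gt (2 * B / e' + 1)
  have hR1 : (1 : ℝ) ≤ R := by
    have : 0 ≤ 2 * B / e' := by positivity
    linarith
  have hR0 : (0 : ℝ) < R := by linarith
  have hRB : B / (R : ℝ) ^ 2 ≤ e' / 2 := by
    have h1 : 2 * B / e' < R := by linarith
    rw [div_lt_iff₀ he0] at h1
    rw [div_le_iff₀ (by positivity)]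
    nlinarith
  set Fs : Finset K := Finset.Icc (fun _ => -(R : ℤ)) (fun _ => (R : ℤ)) with hFs
  have hout : ∀ k : K, k ∉ Fs → (R : ℝ) ^ 2 ≤ ∑ i, (k i : ℝ) ^ 2 := by
    intro k hk
    rw [hFs, Finset.mem_Icc, not_and_or] at hk
    obtain ⟨i, hi⟩ : ∃ i, (k i : ℤ) < -(R : ℤ) ∨ (R : ℤ) < k i := by
      rcases hk with hk | hk
      · rw [Pi.le_def] at hk
        push Not at hk
        obtain ⟨i, hi⟩ := hk
        exact ⟨i, Or.inl hi⟩
      · rw [Pi.le_def] at hk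
        push Not at hk
        obtain ⟨i, hi⟩ := hk
        exact ⟨i, Or.inr hi⟩
    have h1 : (R : ℝ) ^ 2 ≤ (k i : ℝ) ^ 2 := by
      rcases hi with hi | hi
      · have h2 : (k i : ℝ) < -(R : ℝ) := by exact_mod_cast hi
        nlinarith
      · have h2 : (R : ℝ) < (k i : ℝ) := by exact_mod_cast hi
        nlinarith
    exact h1.trans (Finset.single_le_sum (f := fun i => (k i : ℝ) ^ 2) (fun i _ => sq_nonneg _) (Finset.mem_univ i))
  have hin : ∀ k : K, k ≠ 0 → (1 : ℝ) ≤ ∑ i, (k i : ℝ) ^ 2 := by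
    intro k hk
    obtain ⟨j, hj⟩ := Function.ne_iff.1 hk
    have hj' : k j ≠ 0 := hj
    have h0 : 0 < k j ^ 2 := by positivity
    have h1 : (1 : ℤ) ≤ k j ^ 2 := by linarith
    have h2 : (1 : ℝ) ≤ (k j : ℝ) ^ 2 := by exact_mod_cast h1
    exact h2.trans (Finset.single_le_sum (f := fun i => (k i : ℝ) ^ 2) (fun i _ => sq_nonneg _) (Finset.mem_univ j))
  have hterm : ∀ t k, (if k = 0 then 0 else ‖x t k - a k‖ₑ ^ 2 / ENNReal.ofReal (∑ i, (k i : ℝ) ^ 2)) ≤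
      (if k ∈ Fs then ‖x t k - a k‖ₑ ^ 2 else 0) + ENNReal.ofReal (1 / (R : ℝ) ^ 2) * ‖x t k - a k‖ₑ ^ 2 := by
    intro t k
    by_cases hk : k = 0
    · rw [if_pos hk]; exact zero_le
    · rw [if_neg hk]
      by_cases hF : k ∈ Fs
      · rw [if_pos hF]
        refine le_trans ?_ le_self_add
        refine ENNReal.div_le_of_le_mul ?_
        exact le_mul_of_one_le_right zero_le (by rw [ENNReal.one_le_ofReal]; exact hin k hk)
      · rw [if_neg hF, zero_add, mul_comm, div_eq_mul_inv, ← ENNReal.ofReal_inv_of_pos (by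
          have := hin k hk; linarith)]
        refine mul_le_mul' le_rfl (ENNReal.ofReal_le_ofReal ?_)
        rw [one_div]
        exact inv_anti₀ (by positivity) (hout k hF)
  have hfin : Tendsto (fun t => ∑ k ∈ Fs, ‖x t k - a k‖ₑ ^ 2) F (𝓝 0) := by
    have h1 : Tendsto (fun t => ∑ k ∈ Fs, ‖x t k - a k‖ₑ ^ 2) F (𝓝 (∑ k ∈ Fs, ‖a k - a k‖ₑ ^ 2)) := by
      refine tendsto_finsetSum _ fun k _ => ?_
      exact ((ENNReal.continuous_pow 2).tendsto _).comp ((continuous_enorm.tendsto _).comp ((hlim k).sub_const (a k)))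
    simpa using h1
  have he2 : (0 : ℝ≥0∞) < ENNReal.ofReal (e' / 2) := by rw [ENNReal.ofReal_pos]; positivity
  filter_upwards [hb, hfin.eventually (gt_mem_nhds he2)] with t ht1 ht2
  obtain ⟨s1, s2⟩ := ht1
  have hsum : ∑' k, ‖x t k - a k‖ₑ ^ 2 ≤ ENNReal.ofReal B := by
    have e1 : ∀ k, ‖x t k - a k‖ₑ ^ 2 = ENNReal.ofReal (‖x t k - a k‖ ^ 2) := by
      intro k
      rw [← ofReal_norm, ENNReal.ofReal_pow (norm_nonneg _)]
    simp_rw [e1]
    rw [← ENNReal.ofReal_tsum_of_nonneg (fun _ => sq_nonneg _) s1]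
    exact ENNReal.ofReal_le_ofReal s2
  calc _ ≤ ∑' k, ((if k ∈ Fs then ‖x t k - a k‖ₑ ^ 2 else 0) +
        ENNReal.ofReal (1 / (R : ℝ) ^ 2) * ‖x t k - a k‖ₑ ^ 2) := ENNReal.tsum_le_tsum (hterm t)
    _ = ∑ k ∈ Fs, ‖x t k - a k‖ₑ ^ 2 + ENNReal.ofReal (1 / (R : ℝ) ^ 2) * ∑' k, ‖x t k - a k‖ₑ ^ 2 := by
        rw [ENNReal.tsum_add, ENNReal.tsum_mul_left]
        congr 1
        rw [tsum_eq_sum (s := Fs) fun k hk => if_neg hk]
        exact Finset.sum_congr rfl fun k hk => if_pos hk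
    _ ≤ ENNReal.ofReal (e' / 2) + ENNReal.ofReal (1 / (R : ℝ) ^ 2) * ENNReal.ofReal B :=
        add_le_add ht2.le (mul_le_mul' le_rfl hsum)
    _ = ENNReal.ofReal (e' / 2 + B / (R : ℝ) ^ 2) := by
        rw [← ENNReal.ofReal_mul (by positivity), ← ENNReal.ofReal_add (by positivity) (by positivity)]
        congr 1
        ring
    _ ≤ e := by
        rw [hee]
        exact ENNReal.ofReal_le_ofReal (by linarith)

/-- The limit of the solution at the time `T`. -/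
theorem left_limit (hν : 0 ≤ ν) (hT : 0 < T) (h : IsSol ν T u p) {m : E3} (hm : ∀ i, ∫ x in cube, u 0 x i = m i) :
    ∃ a : K → C3, (∀ k, Tendsto (fun t => WH u t k) (𝓝[<] T) (𝓝 (a k))) ∧ Sym a ∧ (∀ k, dt k (a k) = 0) ∧
      (∀ i, a 0 i = (m i : ℂ)) ∧ Summable (fun k => ‖a k‖ ^ 2) ∧ ∑' k, ‖a k‖ ^ 2 ≤ energy (u 0) ∧
      Tendsto (fun t => ∑' k, if k = 0 then 0 else ‖WH u t k - a k‖ₑ ^ 2 / ENNReal.ofReal (∑ i, (k i : ℝ) ^ 2))
        (𝓝[<] T) (𝓝 0) := by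
  choose a ha using fun k i => left_coef (p := p) hν hT h k i
  have hI : Ico 0 T ∈ 𝓝[<] T := Ico_mem_nhdsLT hT
  have hlim : ∀ k, Tendsto (fun t => WH u t k) (𝓝[<] T) (𝓝 (a k)) := fun k => tendsto_pi_nhds.2 fun i => ha k i
  have hE0 : 0 ≤ energy (u 0) := energy_nonneg _
  have hfin : ∀ s : Finset K, ∑ k ∈ s, ‖a k‖ ^ 2 ≤ energy (u 0) := by
    intro s
    have h1 : Tendsto (fun t => ∑ k ∈ s, ‖WH u t k‖ ^ 2) (𝓝[<] T) (𝓝 (∑ k ∈ s, ‖a k‖ ^ 2)) :=
      tendsto_finsetSum _ fun k _ => ((hlim k).norm.pow 2)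
    refine le_of_tendsto h1 ?_
    filter_upwards [hI] with t ht
    obtain ⟨s1, s2⟩ := WH_sq h ht
    exact (s1.sum_le_tsum s fun _ _ => sq_nonneg _).trans (s2.trans (energy_le hν h ht))
  have hs : Summable fun k => ‖a k‖ ^ 2 := summable_of_sum_le (fun _ => sq_nonneg _) hfin
  have hsE : ∑' k, ‖a k‖ ^ 2 ≤ energy (u 0) := hs.tsum_le_of_sum_le hfin
  refine ⟨a, hlim, fun k i => ?_, fun k => ?_, fun i => ?_, hs, hsE, ?_⟩
  · refine tendsto_nhds_unique (ha (-k) i) (((continuous_star.tendsto _).comp (ha k i)).congr fun t => ?_)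
    exact (fr_neg _ _).symm
  · refine tendsto_nhds_unique (((dt_cont k).tendsto _).comp (hlim k)) (tendsto_const_nhds.congr' ?_)
    filter_upwards [hI] with t ht
    exact (WH_div h ht k).symm
  · refine tendsto_nhds_unique (ha 0 i) (tendsto_const_nhds.congr' ?_)
    filter_upwards [hI] with t ht
    rw [WH_mean h ht i, ← hm i]
    exact (fr_zero _).symm
  · refine left_weight (B := 4 * energy (u 0)) (by positivity) hlim ?_
    filter_upwards [hI] with t ht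
    obtain ⟨s1, s2⟩ := WH_sq h ht
    have s3 := s2.trans (energy_le hν h ht)
    have hle : ∀ k, ‖WH u t k - a k‖ ^ 2 ≤ 2 * ‖WH u t k‖ ^ 2 + 2 * ‖a k‖ ^ 2 := by
      intro k
      have h1 := norm_sub_le (WH u t k) (a k)
      have h2 := norm_nonneg (WH u t k - a k)
      nlinarith [sq_nonneg (‖WH u t k‖ - ‖a k‖)]
    have hs2 := (s1.mul_left 2).add (hs.mul_left 2)
    have hs3 := hs2.of_nonneg_of_le (fun k => sq_nonneg _) hle
    refine ⟨hs3, (hs3.tsum_le_tsum hle hs2).trans ?_⟩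
    rw [(s1.mul_left 2).tsum_add (hs.mul_left 2), tsum_mul_left, tsum_mul_left]
    linarith

end

end Pool.Agent.K1H11.NS
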