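import Pool.Agent.K1H11.NS8.LeftWeak

/-!
# The weak formulation on `[0, T)`, integrated
-/

open MeasureTheory Set Filter Topology
open scoped ENNReal NNReal ContDiff

namespace Pool.Agent.K1H11.NS

open H459R3.NS (ee fr cube S SP Per D Rap IsSol energy enstrophy)
open Pool.Agent.H356R3.NS (fc)
open Pool.Agent.K1H52.L2 (tf_comp tf_sp smooth_dt smooth_pd weakInt_bound)

section
variable {ν T : ℝ} {u : ℝ → E3 → E3} {p : ℝ → E3 → ℝ} {φ : ℝ → E3 → E3}

lemma weakInt_contOn (hφ : TestField φ) {s : Set (ℝ × E3)} (hU : ContinuousOn (fun z : ℝ × E3 => u z.1 z.2) s) :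
    ContinuousOn (fun z : ℝ × E3 => weakInt ν u φ z.1 z.2) s := by
  have hUi : ∀ i, ContinuousOn (fun z : ℝ × E3 => u z.1 z.2 i) s := fun i => (continuousOn_pi.1 hU) i
  have h1 : ∀ i, Continuous (fun z : ℝ × E3 => deriv (fun s => φ s z.2 i) z.1) := fun i =>
    (smooth_dt (f := fun t x => φ t x i) (tf_comp hφ i)).continuous
  have h2 : ∀ i j, Continuous (fun z : ℝ × E3 => Pool.Agent.H356R3.NS.pd j (fun y => φ z.1 y i) z.2) := fun i j =>
    (smooth_pd (f := fun t x => φ t x i) (tf_comp hφ i) j).continuous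
  have h3 : ∀ i j, Continuous (fun z : ℝ × E3 => Pool.Agent.H356R3.NS.pd j (Pool.Agent.H356R3.NS.pd j
      fun y => φ z.1 y i) z.2) := fun i j =>
    (smooth_pd (f := fun t x => H459R3.NS.pd j (fun y => φ t y i) x)
      (smooth_pd (f := fun t x => φ t x i) (tf_comp hφ i) j) j).continuous
  simp_rw [K1H52.L2.weakInt_eq]
  refine continuousOn_finsetSum _ fun i _ => ?_
  refine ((hUi i).mul ((h1 i).continuousOn.add (continuousOn_const.mul
    (continuousOn_finsetSum _ fun j _ => (h3 i j).continuousOn)))).add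
    (continuousOn_finsetSum _ fun j _ => ?_)
  exact ((hUi i).mul (hUi j)).mul (h2 i j).continuousOn

lemma left_sq_int (hν : 0 ≤ ν) (h : IsSol ν T u p) :
    IntegrableOn (fun z : ℝ × E3 => ∑ i, u z.1 z.2 i ^ 2) (Ioo 0 T ×ˢ cube) := by
  have hm1 : MeasurableSet (Ioo (0 : ℝ) T ×ˢ (cube : Set E3)) := measurableSet_Ioo.prod measurableSet_Icc
  have hsub : Ioo (0 : ℝ) T ×ˢ (cube : Set E3) ⊆ Ico 0 T ×ˢ univ := prod_mono Ioo_subset_Ico_self (subset_univ _)
  have hU : ContinuousOn (fun z : ℝ × E3 => u z.1 z.2) (Ico 0 T ×ˢ univ) := h.smooth_u.continuousOn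
  have hUm : AEStronglyMeasurable (fun z : ℝ × E3 => u z.1 z.2) (volume.restrict (Ioo (0 : ℝ) T ×ˢ cube)) :=
    (hU.mono hsub).aestronglyMeasurable hm1
  have hc : ContinuousOn (fun z : ℝ × E3 => ∑ i, u z.1 z.2 i ^ 2) (Ico 0 T ×ˢ univ) :=
    continuousOn_finsetSum _ fun i _ => ((continuousOn_pi.1 hU) i).pow 2
  refine ⟨(hc.mono hsub).aestronglyMeasurable hm1, ?_⟩
  have e1 : (volume : Measure (ℝ × E3)).restrict (Ioo (0 : ℝ) T ×ˢ cube)
      = (volume.restrict (Ioo (0 : ℝ) T)).prod (volume.restrict (cube : Set E3)) := by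
    rw [Measure.prod_restrict]; rfl
  have h3 : ∫⁻ z in Ioo (0 : ℝ) T ×ˢ (cube : Set E3), ‖u z.1 z.2‖ₑ ^ 2
      = ∫⁻ t in Ioo 0 T, ∫⁻ x in cube, ‖u t x‖ₑ ^ 2 := by
    rw [e1] at hUm ⊢
    exact lintegral_prod _ (hUm.enorm.pow_const 2)
  unfold HasFiniteIntegral
  have h4 : ∫⁻ z in Ioo (0 : ℝ) T ×ˢ (cube : Set E3), ‖∑ i, u z.1 z.2 i ^ 2‖ₑ
      ≤ ∫⁻ z in Ioo (0 : ℝ) T ×ˢ (cube : Set E3), 3 * ‖u z.1 z.2‖ₑ ^ 2 := by
    refine lintegral_mono fun z => ?_
    refine (enorm_sum_le _ _).trans ((Finset.sum_le_sum (g := fun _ => ‖u z.1 z.2‖ₑ ^ 2) fun i _ => ?_).trans ?_)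
    · rw [enorm_pow]
      exact pow_le_pow_left' (ENNReal.coe_le_coe.2 (nnnorm_le_pi_nnnorm (u z.1 z.2) i)) 2
    · rw [Finset.sum_const, Finset.card_univ, Fintype.card_fin, nsmul_eq_mul]
      push_cast
      exact le_rfl
  refine h4.trans_lt ?_
  rw [lintegral_const_mul' _ _ (by norm_num), h3]
  exact ENNReal.mul_lt_top (by norm_num) ((left_sq hν h).trans_lt
    (ENNReal.mul_lt_top ENNReal.ofReal_lt_top ENNReal.ofReal_lt_top))

theorem weak_left (hν : 0 ≤ ν) (hT : 0 < T) (h : IsSol ν T u p) (hφ : TestField φ) {a : K → C3}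
    (hlim : ∀ k, Tendsto (fun t => WH u t k) (𝓝[<] T) (𝓝 (a k))) :
    IntegrableOn (fun z : ℝ × E3 => weakInt ν u φ z.1 z.2) (Ioo 0 T ×ˢ cube) ∧
    ∫ z in Ioo 0 T ×ˢ (cube : Set E3), weakInt ν u φ z.1 z.2 =
      pairing a (φ T) - ∫ x in cube, ∑ i, u 0 x i * φ 0 x i := by
  have hm1 : MeasurableSet (Ioo (0 : ℝ) T ×ˢ (cube : Set E3)) := measurableSet_Ioo.prod measurableSet_Icc
  have hsub : Ioo (0 : ℝ) T ×ˢ (cube : Set E3) ⊆ Ico 0 T ×ˢ univ := prod_mono Ioo_subset_Ico_self (subset_univ _)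
  have hU : ContinuousOn (fun z : ℝ × E3 => u z.1 z.2) (Ico 0 T ×ˢ univ) := h.smooth_u.continuousOn
  obtain ⟨C, hC0, hC⟩ := weakInt_bound hφ u ν T
  have hfin : volume (Ioo (0 : ℝ) T ×ˢ (cube : Set E3)) ≠ ⊤ := by
    rw [Measure.volume_eq_prod, Measure.prod_prod]
    exact ENNReal.mul_ne_top (measure_Ioo_lt_top).ne (isCompact_Icc.measure_lt_top).ne
  have hint : IntegrableOn (fun z : ℝ × E3 => weakInt ν u φ z.1 z.2) (Ioo 0 T ×ˢ cube) := by
    have hg : IntegrableOn (fun z : ℝ × E3 => C * (1 + ∑ i, u z.1 z.2 i ^ 2)) (Ioo 0 T ×ˢ cube) :=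
      ((integrableOn_const hfin).add (left_sq_int hν h)).const_mul C
    refine Integrable.mono' hg ?_ ?_
    · exact ((weakInt_contOn hφ hU).mono hsub).aestronglyMeasurable hm1
    · refine (ae_restrict_iff' hm1).2 (Filter.Eventually.of_forall fun z hz => ?_)
      rw [Real.norm_eq_abs]
      exact hC z.1 ⟨hz.1.1.le, hz.1.2.le⟩ z.2 hz.2
  refine ⟨hint, ?_⟩
  have e1 : (volume : Measure (ℝ × E3)) = (volume : Measure ℝ).prod (volume : Measure E3) := rfl
  have hint2 : IntegrableOn (fun t => ∫ x in cube, weakInt ν u φ t x) (Ioo 0 T) := by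
    have h3 : Integrable (fun z : ℝ × E3 => weakInt ν u φ z.1 z.2)
        ((volume.restrict (Ioo 0 T)).prod (volume.restrict (cube : Set E3))) := by
      rw [Measure.prod_restrict]; exact hint
    exact h3.integral_prod_left
  rw [e1, setIntegral_prod _ (by rw [← e1]; exact hint), ← integral_Ioc_eq_integral_Ioo,
    ← intervalIntegral.integral_of_le hT.le]
  refine intervalIntegral.integral_eq_sub_of_hasDerivAt_of_tendsto hT (fun t ht => G_deriv_sol h hφ ht) ?_ ?_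
    (pair_left hν hT h hφ hlim)
  · rw [intervalIntegrable_iff_integrableOn_Ioo_of_le hT.le]
    exact hint2
  · have hc : ContinuousOn (fun t => ∫ x in cube, ∑ i, u t x i * φ t x i) (Ico 0 T) := by
      refine H459R3.NS.continuousOn_int (F := fun t x => ∑ i, u t x i * φ t x i) ?_
      refine continuousOn_finsetSum _ fun i _ => ?_
      exact ((continuousOn_pi.1 hU) i).mul (tf_comp hφ i).continuous.continuousOn
    have h1 := (hc 0 ⟨le_rfl, hT⟩).mono_left (nhdsWithin_mono 0 (Ioo_subset_Ico_self (a := (0 : ℝ)) (b := T)))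
    rwa [nhdsWithin_Ioo_eq_nhdsGT hT] at h1

end

end Pool.Agent.K1H11.NS
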