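import Pool.Agent.K1H11.NS8.Left

/-!
# The weak formulation on `[0, T)`
-/

open MeasureTheory Set Filter Topology
open scoped ENNReal NNReal ContDiff

namespace Pool.Agent.K1H11.NS

open H459R3.NS (ee fr cube S SP Per D Rap IsSol energy enstrophy)
open Pool.Agent.H356R3.NS (fc)
open Pool.Agent.K1H52.L2 (tf_comp tf_sp space_id smooth_dt weakInt_bound pair_formula norm_pair_le unif_bound
  fr_cont om_summable sk sk_nonneg)

section
variable {ν T : ℝ} {u : ℝ → E3 → E3} {p : ℝ → E3 → ℝ} {φ : ℝ → E3 → E3}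

lemma G_deriv_sol (h : IsSol ν T u p) (hφ : TestField φ) {t : ℝ} (ht : t ∈ Ioo 0 T) :
    HasDerivAt (fun t => ∫ x in cube, ∑ i, u t x i * φ t x i) (∫ x in cube, weakInt ν u φ t x) t := by
  have hI : t ∈ Ico 0 T := ⟨ht.1.le, ht.2⟩
  have hF : ContDiffOn ℝ 1 (fun z : ℝ × E3 => ∑ i, u z.1 z.2 i * φ z.1 z.2 i) (Ioo 0 T ×ˢ univ) := by
    refine ContDiffOn.sum fun i _ => ?_
    exact (H459R3.NS.mono_Ioo (f := fun s y => u s y i) (h.smooth_c i) (by norm_cast)).mul
      (((tf_comp hφ i).of_le (by norm_cast)).contDiffOn)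
  have h1 := H459R3.NS.hasDerivAt_int (F := fun s x => ∑ i, u s x i * φ s x i) hF ht
  refine h1.congr_deriv ?_
  have e := space_id (v := fun i x => u t x i) (ψ := fun i x => φ t x i)
    (g := fun i x => deriv (fun s => φ s x i) t) (q := p t) (fun i => h.sp hI i)
    (fun i => tf_sp hφ t i) (fun i => by
      have := (smooth_dt (f := fun s y => φ s y i) (tf_comp hφ i)).continuous
      exact this.comp (by fun_prop : Continuous fun x : E3 => ((t, x) : ℝ × E3))) (h.sp_p hI)
    (h.divfree t hI) (hφ.divFree t) ν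
  simp_rw [K1H52.L2.weakInt_eq]
  refine Eq.trans ?_ e
  congr 1
  funext x
  have d1 : ∀ i, HasDerivAt (fun s => u s x i * φ s x i)
      (H459R3.NS.dt (fun s y => u s y i) t x * φ t x i + u t x i * deriv (fun s => φ s x i) t) t := by
    intro i
    have c1 : HasDerivAt (fun s => u s x i) (H459R3.NS.dt (fun s y => u s y i) t x) t := by
      have c0 : ContDiffOn ℝ 1 (fun z : ℝ × E3 => u z.1 z.2 i) (Ioo 0 T ×ˢ univ) :=
        H459R3.NS.mono_Ioo (f := fun s y => u s y i) (h.smooth_c i) (by norm_cast)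
      have := H459R3.NS.hasDerivAt_slice (F := fun s y => u s y i) c0 ht x
      exact this.congr_deriv this.deriv.symm
    have c2 : HasDerivAt (fun s => φ s x i) (deriv (fun s => φ s x i) t) t := by
      have c3 := K1H52.L2.hasDerivAt_t (f := fun s y => φ s y i) (tf_comp hφ i) t x
      exact c3.congr_deriv c3.deriv.symm
    exact c1.mul c2
  rw [(HasDerivAt.fun_sum fun i _ => d1 i).deriv]
  refine Finset.sum_congr rfl fun i _ => ?_
  rw [h.dt_eq ht i x]

/-- The pairing with test fields is continuous at the time `T`. -/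
lemma pair_left (hν : 0 ≤ ν) (hT : 0 < T) (h : IsSol ν T u p) (hφ : TestField φ) {a : K → C3}
    (hlim : ∀ k, Tendsto (fun t => WH u t k) (𝓝[<] T) (𝓝 (a k))) :
    Tendsto (fun t => ∫ x in cube, ∑ i, u t x i * φ t x i) (𝓝[<] T) (𝓝 (pairing a (φ T))) := by
  have hI : Ico 0 T ∈ 𝓝[<] T := Ico_mem_nhdsLT hT
  set B := Real.sqrt (energy (u 0)) with hB
  have hB0 : 0 ≤ B := Real.sqrt_nonneg _
  choose C hC0 hC using fun i => unif_bound 3 T (f := fun t x => φ t x i) (tf_comp hφ i)
    (fun t => (tf_sp hφ t i).per)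
  set CC := ∑ i, C i with hCC
  have hCC0 : 0 ≤ CC := Finset.sum_nonneg fun i _ => hC0 i
  have hφb : ∀ t ∈ Icc (0 : ℝ) T, ∀ k i, ‖fc (φ t) k i‖ ≤ CC * K1H52.L2.om 3 k := by
    intro t ht k i
    have hs := sk_nonneg k
    have h1 : 0 < (1 + sk k) ^ 3 := by positivity
    rw [fc_eq_fr]
    unfold K1H52.L2.om
    rw [← div_eq_mul_inv, le_div_iff₀ h1, mul_comm]
    exact (hC i t ht k).trans (Finset.single_le_sum (f := C) (fun j _ => hC0 j) (Finset.mem_univ i))
  have hom : Summable fun k : K => K1H52.L2.om 3 k := by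
    have h1 := om_summable (a := fun _ _ => (1 : ℂ)) (C := 1) (M := 0) (fun k => by
      rw [pow_zero, mul_one]
      refine (pi_norm_le_iff_of_nonneg zero_le_one).2 fun i => ?_
      simp)
    refine h1.of_nonneg_of_le (fun k => (K1H52.L2.om_pos _ _).le) fun k => ?_
    have h2 : (1 : ℝ) ≤ ‖(fun _ => 1 : Fin 3 → ℂ)‖ := by
      have := norm_le_pi_norm (fun _ => 1 : Fin 3 → ℂ) 0
      simpa using this
    have h3 := (K1H52.L2.om_pos 3 k).le
    show K1H52.L2.om 3 k ≤ K1H52.L2.om (0 + 3) k * ‖(fun _ => 1 : Fin 3 → ℂ)‖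
    exact le_mul_of_one_le_right h3 h2
  have hlimi : ∀ k i, Tendsto (fun t => fc (u t) k i) (𝓝[<] T) (𝓝 (a k i)) := by
    intro k i
    have h1 := ((continuous_apply i).tendsto _).comp (hlim k)
    refine h1.congr fun t => ?_
    exact (fc_eq_fr _ _ _).symm
  have hQ : Tendsto (fun t => ∑' k, ∑ i, fc (u t) k i * star (fc (φ t) k i)) (𝓝[<] T)
      (𝓝 (∑' k, ∑ i, a k i * star (fc (φ T) k i))) := by
    refine tendsto_tsum_of_dominated_convergence (hom.mul_left (3 * CC * B)) (fun k => ?_) ?_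
    · refine tendsto_finsetSum _ fun i _ => (hlimi k i).mul ?_
      have hc : Continuous fun t => fc (φ t) k i := by
        simp_rw [fc_eq_fr]
        exact fr_cont (f := fun t x => φ t x i) (tf_comp hφ i).continuous k
      exact ((continuous_star.comp hc).tendsto T).mono_left nhdsWithin_le_nhds
    · filter_upwards [hI] with t ht k
      have hW : ‖(fun i => fc (u t) k i : Fin 3 → ℂ)‖ ≤ B := by
        have e1 : (fun i => fc (u t) k i : Fin 3 → ℂ) = WH u t k := by
          funext i; exact fc_eq_fr _ _ _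
        rw [e1]
        exact WH_le hν h ht k
      refine (norm_pair_le (b := fun i => fc (u t) k i) fun i => hφb t ⟨ht.1, ht.2.le⟩ k i).trans ?_
      have h3 := (K1H52.L2.om_pos 3 k).le
      calc 3 * (CC * K1H52.L2.om 3 k) * ‖(fun i => fc (u t) k i : Fin 3 → ℂ)‖ ≤ 3 * (CC * K1H52.L2.om 3 k) * B := by gcongr
        _ = _ := by ring
  have hre := (Complex.continuous_re.tendsto _).comp hQ
  unfold pairing
  refine hre.congr' ?_
  filter_upwards [hI] with t ht
  have hs := pair_formula hφ (U := u) (t := t) fun i => h.sp ht i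
  simp only [Function.comp_apply]
  rw [hs.tsum_eq, Complex.ofReal_re]

lemma left_sq (hν : 0 ≤ ν) (h : IsSol ν T u p) :
    ∫⁻ t in Ioo 0 T, ∫⁻ x in cube, ‖u t x‖ₑ ^ 2 ≤ ENNReal.ofReal (energy (u 0)) * ENNReal.ofReal T := by
  have h1 : ∀ t ∈ Ioo 0 T, ∫⁻ x in cube, ‖u t x‖ₑ ^ 2 ≤ ENNReal.ofReal (energy (u 0)) := by
    intro t ht
    have hI : t ∈ Ico 0 T := ⟨ht.1.le, ht.2⟩
    have h2 : ∀ x, ‖u t x‖ₑ ^ 2 ≤ ∑ i, ENNReal.ofReal (u t x i ^ 2) := by
      intro x
      have h3 : ‖u t x‖ ≤ Real.sqrt (∑ i, u t x i ^ 2) := by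
        rw [pi_norm_le_iff_of_nonneg (Real.sqrt_nonneg _)]
        intro i
        rw [Real.norm_eq_abs]
        apply Real.abs_le_sqrt
        exact Finset.single_le_sum (f := fun i => u t x i ^ 2) (fun i _ => sq_nonneg _) (Finset.mem_univ i)
      have h4 : ‖u t x‖ ^ 2 ≤ ∑ i, u t x i ^ 2 := by
        calc _ ≤ (Real.sqrt (∑ i, u t x i ^ 2)) ^ 2 := pow_le_pow_left₀ (norm_nonneg _) h3 2
          _ = _ := Real.sq_sqrt (Finset.sum_nonneg fun i _ => sq_nonneg _)
      rw [← ofReal_norm, ← ENNReal.ofReal_pow (norm_nonneg _), ← ENNReal.ofReal_sum_of_nonneg fun i _ => sq_nonneg _]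
      exact ENNReal.ofReal_le_ofReal h4
    calc ∫⁻ x in cube, ‖u t x‖ₑ ^ 2 ≤ ∫⁻ x in cube, ∑ i, ENNReal.ofReal (u t x i ^ 2) := lintegral_mono h2
      _ = ∑ i, ∫⁻ x in cube, ENNReal.ofReal (u t x i ^ 2) := by
          refine lintegral_finsetSum _ fun i _ => ?_
          exact ENNReal.measurable_ofReal.comp ((h.sp hI i).smooth.continuous.pow 2).measurable
      _ = ∑ i, ENNReal.ofReal (∫ x in cube, u t x i ^ 2) := by
          refine Finset.sum_congr rfl fun i _ => ?_
          have hint : IntegrableOn (fun x => u t x i ^ 2) cube :=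
            H459R3.NS.integrableOn_cube ((h.sp hI i).smooth.continuous.pow 2)
          exact (ofReal_integral_eq_lintegral_ofReal hint (Eventually.of_forall fun x => sq_nonneg _)).symm
      _ = ENNReal.ofReal (energy (u t)) := by
          unfold energy
          rw [ENNReal.ofReal_sum_of_nonneg fun i _ => integral_nonneg fun x => sq_nonneg _]
      _ ≤ _ := ENNReal.ofReal_le_ofReal (energy_le hν h hI)
  calc _ ≤ ∫⁻ _ in Ioo 0 T, ENNReal.ofReal (energy (u 0)) := setLIntegral_mono' measurableSet_Ioo h1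
    _ = _ := by rw [setLIntegral_const, Real.volume_Ioo, sub_zero]

end

end Pool.Agent.K1H11.NS
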