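import Pool.Agent.K1H11.NS8.Glue

/-!
# Continuation past the time `T ≥ 0`
-/

open MeasureTheory Set Filter Topology
open scoped ENNReal NNReal ContDiff

namespace Pool.Agent.K1H11.NS

open H459R3.NS (ee fr cube S SP Per D Rap IsSol energy enstrophy)
open Pool.Agent.H356R3.NS (AdmissiblePeriodic fc)
open Pool.Agent.K1H52.L2 (pair_formula)

section
variable {ν T : ℝ} {u V : ℝ → E3 → E3} {p : ℝ → E3 → ℝ} {φ : ℝ → E3 → E3}

lemma coef_energy (h : IsSol ν T u p) {t : ℝ} (ht : t ∈ Ico 0 T) :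
    Summable (fun k => ∑ i, ‖WH u t k i‖ ^ 2) ∧ ∑' k, ∑ i, ‖WH u t k i‖ ^ 2 = energy (u t) := by
  have hp : ∀ i, Summable (fun k => ‖WH u t k i‖ ^ 2) ∧
      ∫ x in cube, u t x i ^ 2 = ∑' k, ‖WH u t k i‖ ^ 2 := by
    intro i
    obtain ⟨p1, p2⟩ := parseval (h.sp ht i)
    refine ⟨p1, ?_⟩
    simp_rw [pow_two (u t _ i)]
    exact p2
  refine ⟨summable_sum fun i _ => (hp i).1, ?_⟩
  rw [Summable.tsum_finsetSum fun i _ => (hp i).1]
  unfold energy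
  exact Finset.sum_congr rfl fun i _ => (hp i).2.symm

lemma enn_sum_sq {x : K → C3} (hx : Summable fun k => ∑ i, ‖x k i‖ ^ 2) :
    ∑' k, ∑ i, ‖x k i‖ₑ ^ 2 = ENNReal.ofReal (∑' k, ∑ i, ‖x k i‖ ^ 2) := by
  have e1 : ∀ k, ∑ i, ‖x k i‖ₑ ^ 2 = ENNReal.ofReal (∑ i, ‖x k i‖ ^ 2) := by
    intro k
    rw [ENNReal.ofReal_sum_of_nonneg fun i _ => sq_nonneg _]
    refine Finset.sum_congr rfl fun i _ => ?_
    rw [← ofReal_norm, ENNReal.ofReal_pow (norm_nonneg _)]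
  simp_rw [e1]
  exact (ENNReal.ofReal_tsum_of_nonneg (fun _ => Finset.sum_nonneg fun i _ => sq_nonneg _) hx).symm

lemma left_sum (hν : 0 ≤ ν) (hT : 0 < T) (h : IsSol ν T u p) {a : K → C3}
    (hlim : ∀ k, Tendsto (fun t => WH u t k) (𝓝[<] T) (𝓝 (a k))) :
    ∑' k, ∑ i, ‖a k i‖ₑ ^ 2 ≤ ∑' k, ∑ i, ‖fc (u 0) k i‖ₑ ^ 2 := by
  have hI : Ico 0 T ∈ 𝓝[<] T := Ico_mem_nhdsLT hT
  have h00 : (0 : ℝ) ∈ Ico 0 T := ⟨le_rfl, hT⟩
  have hfin : ∀ s : Finset K, ∑ k ∈ s, ∑ i, ‖a k i‖ ^ 2 ≤ energy (u 0) := by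
    intro s
    have h1 : Tendsto (fun t => ∑ k ∈ s, ∑ i, ‖WH u t k i‖ ^ 2) (𝓝[<] T) (𝓝 (∑ k ∈ s, ∑ i, ‖a k i‖ ^ 2)) :=
      tendsto_finsetSum _ fun k _ => tendsto_finsetSum _ fun i _ =>
        ((((continuous_apply i).tendsto _).comp (hlim k)).norm.pow 2)
    refine le_of_tendsto h1 ?_
    filter_upwards [hI] with t ht
    obtain ⟨s1, s2⟩ := coef_energy h ht
    refine (s1.sum_le_tsum s fun _ _ => Finset.sum_nonneg fun i _ => sq_nonneg _).trans ?_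
    rw [s2]
    exact energy_le hν h ht
  have hs : Summable fun k => ∑ i, ‖a k i‖ ^ 2 :=
    summable_of_sum_le (fun _ => Finset.sum_nonneg fun i _ => sq_nonneg _) hfin
  obtain ⟨s1, s2⟩ := coef_energy h h00
  have e : ∀ k i, fc (u 0) k i = WH u 0 k i := fun k i => fc_eq_fr _ _ _
  simp_rw [e]
  rw [enn_sum_sq hs, enn_sum_sq s1, s2]
  exact ENNReal.ofReal_le_ofReal (hs.tsum_le_of_sum_le hfin)

lemma pairing_zero (hT : 0 < T) (h : IsSol ν T u p) (hφ : TestField φ) :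
    pairing (fc (u 0)) (φ 0) = ∫ x in cube, ∑ i, u 0 x i * φ 0 x i := by
  have hs := pair_formula hφ (U := u) (t := 0) fun i => h.sp (t := 0) ⟨le_rfl, hT⟩ i
  unfold pairing
  rw [hs.tsum_eq, Complex.ofReal_re]

end

/-- **Continuation past the time `T ≥ 0`.** -/
theorem continuation' {ν T : ℝ} (hν : 0 < ν) (hT : 0 ≤ T) {u : ℝ → E3 → E3} {p : ℝ → E3 → ℝ} (hu : IsSol ν T u p)
    {m : E3} {b : K → C3} (hbs : Sym b) (hbd : ∀ k, dt k (b k) = 0) (hb0 : ∀ i, b 0 i = (m i : ℂ))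
    (hub : 0 < T → fc (u 0) = b)
    {w₀ : E3 → E3} {w : ℝ → E3 → E3} {q : ℝ → E3 → ℝ} (hw : AdmissiblePeriodic ν w₀ w q)
    (hm : ∀ i, ∫ x in cube, w₀ x i = m i) {ε : ℝ} (hε : 0 < ε) :
    ∃ (U : ℝ → E3 → E3) (a : K → C3),
      (T = 0 → a = b) ∧
      ∑' k, ∑ i, ‖a k i‖ₑ ^ 2 ≤ ∑' k, ∑ i, ‖b k i‖ₑ ^ 2 ∧
      (∀ t, t < T → U t = u t) ∧
      (∀ t₀, T < t₀ → ∃ p, AdmissiblePeriodic ν (U t₀) (fun t => U (t₀ + t)) p) ∧
      (∀ t, T + ε ≤ t → ∀ x i, |U t x i - w (t - T) x i| ≤ ε) ∧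
      (∀ ρ : ℝ, 0 < ρ → ∃ δ : ℝ, 0 < δ ∧ ∀ t, T < t → t ≤ T + δ → ∀ x i, Real.sqrt (t - T) * |U t x i| ≤ ρ) ∧
      (∀ s : ℝ, 2 < s → ∫⁻ t in Ioc T (T + 1), (ENNReal.ofReal (Real.sqrt (t - T)) * ⨆ x, ‖U t x‖ₑ) ^ s /
        ENNReal.ofReal (t - T) ≠ ⊤) ∧
      (∀ r : ℝ, 2 < r → Pool.Agent.H356R3.NS.critNorm r a ≠ ⊤ →
        Tendsto (fun t => Pool.Agent.H356R3.NS.critNorm r (fun k => fc (U t) k - a k)) (𝓝[>] T) (𝓝 0)) ∧
      (∀ wt : K → ℝ≥0∞, (∀ k, k ≠ 0 → wt k ≤ ENNReal.ofReal (1 / ∑ i, (k i : ℝ) ^ 2)) → ∑' k, wt k * ‖a k‖ₑ ≠ ⊤ →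
        Tendsto (fun t => ∑' k, wt k * ‖fc (U t) k - a k‖ₑ) (𝓝[>] T) (𝓝 0)) ∧
      (∑' k, (if k = 0 then 0 else ‖b k‖ₑ ^ 2 / ENNReal.ofReal (∑ i, (k i : ℝ) ^ 2)) ≠ ⊤ →
        Tendsto (fun t => ∑' k, if k = 0 then 0 else ‖fc (U t) k - a k‖ₑ ^ 2 / ENNReal.ofReal (∑ i, (k i : ℝ) ^ 2))
          (𝓝[Ioi 0 \ {T}] T) (𝓝 0) ∧
        (∀ R : ℝ, ∫⁻ t in Ioc 0 R, ∫⁻ x in cube, ‖U t x‖ₑ ^ 2 ≠ ⊤) ∧
        ∀ φ : ℝ → E3 → E3, TestField φ →
          IntegrableOn (fun z : ℝ × E3 => weakInt ν U φ z.1 z.2) (Ioi 0 ×ˢ cube) ∧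
          (∫ z in Ioi (0 : ℝ) ×ˢ (cube : Set E3), weakInt ν U φ z.1 z.2) + pairing b (φ 0) = 0) := by
  -- the value at the time `T`
  obtain ⟨a, hsym, hdt, h0, haT, hsum, hpos⟩ : ∃ a : K → C3, Sym a ∧ (∀ k, dt k (a k) = 0) ∧
      (∀ i, a 0 i = (m i : ℂ)) ∧ (T = 0 → a = b) ∧ ∑' k, ∑ i, ‖a k i‖ₑ ^ 2 ≤ ∑' k, ∑ i, ‖b k i‖ₑ ^ 2 ∧
      (0 < T → (∀ k, Tendsto (fun t => WH u t k) (𝓝[<] T) (𝓝 (a k))) ∧
        (∑' k, (if k = 0 then 0 else ‖a k‖ₑ ^ 2 / ENNReal.ofReal (∑ i, (k i : ℝ) ^ 2)) ≠ ⊤) ∧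
        Tendsto (fun t => ∑' k, if k = 0 then 0 else ‖WH u t k - a k‖ₑ ^ 2 / ENNReal.ofReal (∑ i, (k i : ℝ) ^ 2))
          (𝓝[<] T) (𝓝 0)) := by
    rcases hT.eq_or_lt with h | h
    · exact ⟨b, hbs, hbd, hb0, fun _ => rfl, le_rfl, fun h' => absurd h' (by rw [← h]; exact lt_irrefl _)⟩
    · have hmu : ∀ i, ∫ x in cube, u 0 x i = m i := by
        intro i
        have e1 : fc (u 0) 0 i = (m i : ℂ) := by rw [hub h]; exact hb0 i
        rw [fc_eq_fr, fr_zero] at e1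
        exact_mod_cast e1
      obtain ⟨a, hlim, hsym, hdt, h0, hs, hsE, hleft⟩ := left_limit hν.le h hu hmu
      refine ⟨a, hsym, hdt, h0, fun h' => absurd h' h.ne', ?_, fun _ => ⟨hlim, ?_, hleft⟩⟩
      · rw [← hub h]
        exact left_sum hν.le h hu hlim
      · have ha2 : ∑' k, ‖a k‖ₑ ^ 2 ≤ ENNReal.ofReal (energy (u 0)) := by
          have e1 : ∀ k, ‖a k‖ₑ ^ 2 = ENNReal.ofReal (‖a k‖ ^ 2) := by
            intro k
            rw [← ofReal_norm, ENNReal.ofReal_pow (norm_nonneg _)]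
          simp_rw [e1]
          rw [← ENNReal.ofReal_tsum_of_nonneg (fun _ => sq_nonneg _) hs]
          exact ENNReal.ofReal_le_ofReal hsE
        refine ne_top_of_le_ne_top (ne_top_of_le_ne_top ENNReal.ofReal_ne_top ha2) (ENNReal.tsum_le_tsum fun k => ?_)
        by_cases hk : k = 0
        · rw [if_pos hk]; exact zero_le
        · rw [if_neg hk]
          refine ENNReal.div_le_of_le_mul (le_mul_of_one_le_right zero_le ?_)
          rw [ENNReal.one_le_ofReal]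
          obtain ⟨j, hj⟩ := Function.ne_iff.1 hk
          have hj' : k j ≠ 0 := hj
          have h0 : 0 < k j ^ 2 := by positivity
          have h1 : (1 : ℤ) ≤ k j ^ 2 := by linarith
          have h2 : (1 : ℝ) ≤ (k j : ℝ) ^ 2 := by exact_mod_cast h1
          exact h2.trans (Finset.single_le_sum (f := fun i => (k i : ℝ) ^ 2) (fun i _ => sq_nonneg _)
            (Finset.mem_univ j))
  obtain ⟨V, v1, v2, v3, v3', v4, v5, v6⟩ := bif_main7 hν hw hm hsym hdt h0 hε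
  have htr : Tendsto (fun t => t - T) (𝓝[>] T) (𝓝[>] 0) := by
    refine tendsto_nhdsWithin_iff.2 ⟨?_, ?_⟩
    · have h1 : Tendsto (fun t => t - T) (𝓝 T) (𝓝 (T - T)) := (continuous_id.sub continuous_const).tendsto T
      rw [sub_self] at h1
      exact h1.mono_left nhdsWithin_le_nhds
    · filter_upwards [self_mem_nhdsWithin] with t ht
      have ht' : T < t := ht
      exact sub_pos.2 ht'
  have hGT : ∀ t ∈ Ioi T, glue T u V t = V (t - T) := fun t ht => glue_right (le_of_lt ht)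
  refine ⟨glue T u V, a, haT, hsum, fun t ht => glue_left ht, fun t₀ ht₀ => glue_adm v1 ht₀, fun t ht x i => ?_,
    fun ρ hρ => ?_, fun s hs2 => ?_, fun r hr hra => ?_, fun wt hwt hwa => ?_, fun hb => ?_⟩
  · rw [glue_right (by linarith)]
    exact v2 (t - T) (by linarith) x i
  · obtain ⟨δ, hδ, h3⟩ := v3 ρ hρ
    refine ⟨δ, hδ, fun t h1 h2 x i => ?_⟩
    rw [glue_right h1.le]
    exact h3 (t - T) (by linarith) (by linarith) x i
  · have h1 := v3' s hs2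
    rw [← shift_lint T (fun t => (ENNReal.ofReal (Real.sqrt t) * ⨆ x, ‖V t x‖ₑ) ^ s / ENNReal.ofReal t), shift_Ioc] at h1
    refine ne_top_of_le_ne_top h1 (le_of_eq ?_)
    refine setLIntegral_congr_fun measurableSet_Ioc fun t ht => ?_
    simp only [glue_right (u := u) (V := V) ht.1.le]
  · refine ((v4 r hr hra).comp htr).congr' ?_
    filter_upwards [self_mem_nhdsWithin] with t ht
    simp only [Function.comp, hGT t ht]
  · refine ((v5 wt hwt hwa).comp htr).congr' ?_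
    filter_upwards [self_mem_nhdsWithin] with t ht
    simp only [Function.comp, hGT t ht]
  · rcases hT.eq_or_lt with h | h
    · -- `T = 0`
      subst h
      obtain rfl : a = b := haT rfl
      obtain ⟨v6a, v6b⟩ := v6 hb
      have e0 : ∀ t : ℝ, 0 ≤ t → glue 0 u V t = V t := fun t ht => by rw [glue_right ht, sub_zero]
      have eset : (Ioi (0 : ℝ) \ {0}) = Ioi 0 := by
        ext t
        exact ⟨fun ht => ht.1, fun ht => ⟨ht, fun h' => (mem_Ioi.1 ht).ne' (mem_singleton_iff.1 h')⟩⟩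
      refine ⟨?_, fun R => ?_, fun φ hφ => ?_⟩
      · rw [eset]
        refine v6a.congr' ?_
        filter_upwards [self_mem_nhdsWithin] with t ht
        rw [e0 t (le_of_lt ht)]
      · refine ne_top_of_le_ne_top (v6b R) (le_of_eq ?_)
        refine setLIntegral_congr_fun measurableSet_Ioc fun t ht => ?_
        simp only [e0 t ht.1.le]
      · obtain ⟨w1, w2⟩ := K1H52.L2.weak_form_H v1 v6b hb v5 φ hφ
        have mr : MeasurableSet (Ioi (0 : ℝ) ×ˢ (cube : Set E3)) := measurableSet_Ioi.prod measurableSet_Icc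
        have hr : EqOn (fun z : ℝ × E3 => weakInt ν V φ z.1 z.2) (fun z : ℝ × E3 => weakInt ν (glue 0 u V) φ z.1 z.2)
            (Ioi 0 ×ˢ cube) := by
          intro z hz
          show weakInt ν V φ z.1 z.2 = weakInt ν (glue 0 u V) φ z.1 z.2
          unfold weakInt
          rw [e0 z.1 (le_of_lt hz.1)]
        refine ⟨w1.congr_fun hr mr, ?_⟩
        have e2 : ∫ z in Ioi (0 : ℝ) ×ˢ (cube : Set E3), weakInt ν (glue 0 u V) φ z.1 z.2 =
            ∫ z in Ioi (0 : ℝ) ×ˢ (cube : Set E3), weakInt ν V φ z.1 z.2 := (setIntegral_congr_fun mr hr).symm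
        rw [e2]
        exact w2
    · -- `T > 0`
      obtain ⟨hlim, haH, hleft⟩ := hpos h
      obtain ⟨v6a, v6b⟩ := v6 haH
      have v7 := K1H52.L2.weak_form_H v1 v6b haH v5
      refine ⟨?_, glue_sq hν.le h hu v6b, fun φ hφ => ?_⟩
      · have hle : 𝓝[Ioi 0 \ {T}] T ≤ 𝓝[<] T ⊔ 𝓝[>] T := by
          rw [nhdsLT_sup_nhdsGT]
          exact nhdsWithin_mono T fun t ht => ht.2
        refine Tendsto.mono_left ?_ hle
        refine Tendsto.sup ?_ ?_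
        · refine hleft.congr' ?_
          filter_upwards [self_mem_nhdsWithin] with t ht
          have ht' : t < T := ht
          refine tsum_congr fun k => ?_
          have e1 : fc (glue T u V t) k = WH u t k := by
            funext i
            rw [glue_left ht', fc_eq_fr]
            rfl
          rw [e1]
        · refine (v6a.comp htr).congr' ?_
          filter_upwards [self_mem_nhdsWithin] with t ht
          simp only [Function.comp, hGT t ht]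
      · obtain ⟨w1, w2⟩ := weak_glue hν.le h hu hlim v7 hφ
        refine ⟨w1, ?_⟩
        rw [← hub h, pairing_zero h hu hφ]
        exact w2

end Pool.Agent.K1H11.NS
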